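import Mathlib

/-!
# Zero time of a gcd-subtraction recursion

No hypothesis is assumed.  The limit superior of `f_P(N) / N` is not `1` for every polynomial `P`
with integer coefficients, nonnegative at all positive integers and tending to infinity.
-/

set_option autoImplicit false

open Filter Polynomial Topology

namespace Pool.Agent.Results.MP_0950f1_nt.FixedDivisors

/-- the sequence `a(1) = N`, `a(n) = a(n - 1) - gcd(a(n - 1), P(n))` for `n ≥ 2`
(the entry at `0` is a dummy) -/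
def a (P : ℤ[X]) (N : ℤ) : ℕ → ℤ
  | 0 => N
  | 1 => N
  | n + 2 => a P N (n + 1) - (Int.gcd (a P N (n + 1)) (P.eval ((n + 2 : ℕ) : ℤ)) : ℤ)

/-- the first index `n ≥ 1` with `a(n) = 0` -/
noncomputable def f (P : ℤ[X]) (N : ℕ) : ℕ := sInf {n : ℕ | 1 ≤ n ∧ a P N n = 0}

/-- `P(n) ≥ 0` for all integers `n ≥ 1`, and `P(n) → +∞` -/
def Admissible (P : ℤ[X]) : Prop :=
  (∀ n : ℕ, 1 ≤ n → 0 ≤ P.eval (n : ℤ)) ∧ Tendsto (fun n : ℕ => P.eval (n : ℤ)) atTop atTop

/-- the limit superior of `f_P(N) / N` as `N → ∞` -/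
noncomputable def L (P : ℤ[X]) : ℝ := limsup (fun N : ℕ => (f P N : ℝ) / N) atTop

lemma a_one (P : ℤ[X]) (N : ℤ) : a P N 1 = N := by rw [a]

lemma a_succ (P : ℤ[X]) (N : ℤ) {n : ℕ} (hn : 1 ≤ n) :
    a P N (n + 1) = a P N n - (Int.gcd (a P N n) (P.eval ((n + 1 : ℕ) : ℤ)) : ℤ) := by
  obtain ⟨m, rfl⟩ := Nat.exists_eq_add_of_le' hn
  rw [a]

/-- a general bound for the zero time: a potential `Φ` which drops by at least one at each step -/
lemma exists_zero (P : ℤ[X]) (N : ℕ) (Φ : ℤ → ℤ) (h0 : 0 ≤ Φ 0) (h0' : ∀ x : ℤ, 0 < x → 0 < Φ x)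
    (hstep : ∀ x g : ℤ, ∀ n : ℕ, 0 < x → 1 ≤ n →
      g = (Int.gcd x (P.eval ((n + 1 : ℕ) : ℤ)) : ℤ) → 1 ≤ g → g ≤ x → Φ (x - g) + 1 ≤ Φ x) :
    ∃ n : ℕ, 1 ≤ n ∧ a P N n = 0 ∧ (n : ℤ) ≤ Φ N + 1 := by
  by_contra hcon
  push Not at hcon
  have hN : 0 ≤ Φ N := by
    rcases Nat.eq_zero_or_pos N with rfl | h
    · exact_mod_cast h0
    · exact (h0' _ (by exact_mod_cast h)).le
  have key : ∀ n : ℕ, 1 ≤ n → (n : ℤ) ≤ Φ N + 1 → 
      0 < a P N n ∧ Φ (a P N n) + (n - 1) ≤ Φ N := by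
    intro n hn
    induction n, hn using Nat.le_induction with
    | base =>
      intro h1
      rw [a_one]
      refine ⟨?_, by simp⟩
      have h2 : a P N 1 ≠ 0 := fun h => by
        have := hcon 1 le_rfl h
        omega
      rw [a_one] at h2
      omega
    | succ n hn ih =>
      intro h1
      push_cast at h1
      obtain ⟨h2, h4⟩ := ih (by omega)
      have h5 := a_succ P N hn
      set g : ℤ := (Int.gcd (a P N n) (P.eval ((n + 1 : ℕ) : ℤ)) : ℤ) with hg
      have h6 : 1 ≤ g := by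
        rw [hg]
        have := Int.gcd_pos_of_ne_zero_left (P.eval ((n + 1 : ℕ) : ℤ)) h2.ne'
        omega
      have h7 : g ≤ a P N n := Int.le_of_dvd h2 (Int.gcd_dvd_left _ _)
      have h9 := hstep _ g n h2 hn hg h6 h7
      rw [h5]
      refine ⟨?_, ?_⟩
      · have h10 : a P N (n + 1) ≠ 0 := fun h => by
          have := hcon (n + 1) (by omega) h
          push_cast at this
          omega
        rw [h5] at h10
        omega
      · push_cast
        linarith
  obtain ⟨h2, h4⟩ := key (Φ N + 1).toNat (by omega) (by omega)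
  have h5 := h0' _ h2
  have h6 : ((Φ N + 1).toNat : ℤ) = Φ N + 1 := by omega
  rw [h6] at h4
  linarith

lemma f_spec (P : ℤ[X]) (N : ℕ) : IsLeast {n : ℕ | 1 ≤ n ∧ a P N n = 0} (f P N) := by
  obtain ⟨n, hn, hn', -⟩ := exists_zero P N (fun x => x) le_rfl (fun x hx => hx)
    (fun x g n _ _ _ h1 _ => by linarith)
  exact ⟨Nat.sInf_mem (s := {n : ℕ | 1 ≤ n ∧ a P N n = 0}) ⟨n, hn, hn'⟩,
    fun m hm => Nat.sInf_le hm⟩

lemma f_le (P : ℤ[X]) (N : ℕ) (Φ : ℤ → ℤ) (h0 : 0 ≤ Φ 0) (h0' : ∀ x : ℤ, 0 < x → 0 < Φ x)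
    (hstep : ∀ x g : ℤ, ∀ n : ℕ, 0 < x → 1 ≤ n →
      g = (Int.gcd x (P.eval ((n + 1 : ℕ) : ℤ)) : ℤ) → 1 ≤ g → g ≤ x → Φ (x - g) + 1 ≤ Φ x) :
    (f P N : ℤ) ≤ Φ N + 1 := by
  obtain ⟨n, hn, hn', h⟩ := exists_zero P N Φ h0 h0' hstep
  have h1 : f P N ≤ n := Nat.sInf_le ⟨hn, hn'⟩
  have h2 : (f P N : ℤ) ≤ n := by exact_mod_cast h1
  linarith

/-- the trivial bound -/
lemma f_le_succ (P : ℤ[X]) (N : ℕ) : f P N ≤ N + 1 := by
  have := f_le P N (fun x => x) le_rfl (fun x hx => hx)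
    (fun x g n _ _ _ h1 _ => by linarith)
  exact_mod_cast this

/-- a fixed divisor `q` of the values of `P` -/
lemma f_le_of_dvd (P : ℤ[X]) (q : ℕ) (hq : 2 ≤ q) (hP : ∀ n : ℕ, 2 ≤ n → (q : ℤ) ∣ P.eval (n : ℤ))
    (N : ℕ) : f P N + N / q ≤ N + 1 := by
  have hq' : (2 : ℤ) ≤ q := by exact_mod_cast hq
  have := f_le P N (fun x => x - x / q) (by simp) (fun x hx => ?_) (fun x g n hx hn hg h1 h2 => ?_)
  · have h3 : ((N / q : ℕ) : ℤ) = (N : ℤ) / q := by simp
    have h4 : (f P N : ℤ) + ((N / q : ℕ) : ℤ) ≤ N + 1 := by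
      rw [h3]
      linarith
    exact_mod_cast h4
  · have : x / q < x := Int.ediv_lt_self_of_pos_of_ne_one hx (by omega)
    omega
  · have hgq : (q : ℤ) ∣ x → (q : ℤ) ∣ g := fun h => by
      rw [hg]
      exact Int.dvd_coe_gcd h (hP _ (by omega))
    have hq0 : (0 : ℤ) < q := by linarith
    rcases eq_or_lt_of_le h1 with h3 | h3
    · have h4 : ¬ (q : ℤ) ∣ x := fun h => by
        have := Int.le_of_dvd (by omega) (hgq h)
        omega
      have h5 : (x - g) / q = x / q := by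
        rw [← h3]
        have h6 := Int.emod_nonneg x hq0.ne'
        have h7 : x % q ≠ 0 := fun h => h4 (Int.dvd_of_emod_eq_zero h)
        have h8 := Int.emod_lt_of_pos x hq0
        have h9 := Int.mul_ediv_add_emod x q
        have h10 : 1 ≤ x % q := by omega
        have h11 : x / q * q = q * (x / q) := mul_comm _ _
        refine Int.ediv_eq_iff_of_pos hq0 |>.2 ?_
        constructor <;> linarith
      rw [h5]
      omega
    · have h5 : x / q ≤ (x - g) / q + (g - 1) := by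
        have h6 : x / q ≤ (x - g + q * (g - 1)) / q := by
          refine Int.ediv_le_ediv hq0 ?_
          nlinarith
        rwa [mul_comm, Int.add_mul_ediv_right _ _ hq0.ne'] at h6
      omega

lemma pos_of_lt (P : ℤ[X]) (N : ℕ) {n : ℕ} (hn : 1 ≤ n) (hf : n < f P N) : 0 < a P N n := by
  have hne : ∀ m : ℕ, 1 ≤ m → m < f P N → a P N m ≠ 0 := fun m hm hm' h =>
    absurd ((f_spec P N).2 ⟨hm, h⟩) (by omega)
  induction n, hn using Nat.le_induction with
  | base =>
    have := hne 1 le_rfl hf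
    rw [a_one] at this ⊢
    omega
  | succ n hn ih =>
    have h1 := ih (by omega)
    have h2 : (Int.gcd (a P N n) (P.eval ((n + 1 : ℕ) : ℤ)) : ℤ) ≤ a P N n :=
      Int.le_of_dvd h1 (Int.gcd_dvd_left _ _)
    have h3 := hne (n + 1) (by omega) hf
    rw [a_succ P N hn] at h3 ⊢
    omega

/-- a zero of `P` at an integer `n ≥ 2` -/
lemma f_le_of_root (P : ℤ[X]) (n : ℕ) (hn : 2 ≤ n) (h : P.eval (n : ℤ) = 0) (N : ℕ) :
    f P N ≤ n := by
  by_contra hcon
  push Not at hcon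
  obtain ⟨m, rfl⟩ := Nat.exists_eq_add_of_le' (show 1 ≤ n by omega)
  have h1 := pos_of_lt P N (show 1 ≤ m by omega) (by omega)
  have h2 := pos_of_lt P N (show 1 ≤ m + 1 by omega) hcon
  rw [a_succ P N (by omega), h, Int.gcd_zero_right] at h2
  omega

/-- a power of two dividing all values of `P` -/
lemma f_le_of_two_pow_dvd (P : ℤ[X]) (j : ℕ) (hP : ∀ n : ℕ, 2 ≤ n → (2 : ℤ) ^ j ∣ P.eval (n : ℤ))
    (N : ℕ) : f P N ≤ N / 2 ^ j + j + 1 := by
  classical
  let S : ℤ → Finset ℕ := fun x => (Finset.range j).filter (fun i => ¬ (2 : ℤ) ^ (i + 1) ∣ x)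
  have hj0 : (0 : ℤ) < 2 ^ j := by positivity
  have hS0 : ∀ x : ℤ, (S x).card = 0 → (2 : ℤ) ^ j ∣ x := by
    intro x hx
    rcases Nat.eq_zero_or_pos j with rfl | h
    · simp
    rw [Finset.card_eq_zero, Finset.filter_eq_empty_iff] at hx
    have := hx (Finset.mem_range.2 (show j - 1 < j by omega))
    rw [not_not, show j - 1 + 1 = j by omega] at this
    exact this
  have := f_le P N (fun x => x / 2 ^ j + (S x).card) (by positivity) (fun x hx => ?_)
    (fun x g n hx hn hg h1 h2 => ?_)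
  · have h3 : ((N / 2 ^ j : ℕ) : ℤ) = (N : ℤ) / 2 ^ j := by simp
    have h5 : (S N).card ≤ j := (Finset.card_filter_le _ _).trans (by simp)
    have h4 : (f P N : ℤ) ≤ ((N / 2 ^ j + j + 1 : ℕ) : ℤ) := by
      push_cast
      have : ((S N).card : ℤ) ≤ j := by exact_mod_cast h5
      linarith
    exact_mod_cast h4
  · rcases Nat.eq_zero_or_pos (S x).card with h | h
    · have h3 := hS0 x h
      have : 0 < x / 2 ^ j := Int.ediv_pos_of_pos_of_dvd hx hj0.le h3
      omega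
    · have : 0 ≤ x / 2 ^ j := Int.ediv_nonneg hx.le hj0.le
      omega
  · have hdg : ∀ i : ℕ, i ≤ j → (2 : ℤ) ^ i ∣ x → (2 : ℤ) ^ i ∣ g := fun i hi h => by
      rw [hg]
      exact Int.dvd_coe_gcd h ((pow_dvd_pow _ hi).trans (hP _ (by omega)))
    have hgx : g ∣ x := by
      rw [hg]
      exact Int.gcd_dvd_left _ _
    have hsub : S (x - g) ⊆ S x := by
      intro i hi
      rw [Finset.mem_filter] at hi ⊢
      refine ⟨hi.1, fun h => hi.2 ?_⟩
      exact dvd_sub h (hdg _ (by simpa using hi.1) h)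
    rcases Nat.eq_zero_or_pos (S x).card with h | h
    · have h3 := hS0 x h
      have h4 : (2 : ℤ) ^ j ∣ g := hdg j le_rfl h3
      have h5 : (S (x - g)).card = 0 := by
        have := Finset.card_le_card hsub
        omega
      rw [h, h5]
      obtain ⟨y, rfl⟩ := h4
      have h6 : (x - 2 ^ j * y) / 2 ^ j = x / 2 ^ j - y := by
        rw [Int.sub_mul_ediv_left _ _ hj0.ne']
      rw [h6]
      have h7 : 0 < y := by
        by_contra hy
        push Not at hy
        nlinarith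
      push_cast
      linarith
    · have h3 : (x - g) / 2 ^ j ≤ x / 2 ^ j := Int.ediv_le_ediv hj0 (by linarith)
      have h4 : (S (x - g)).card < (S x).card := by
        refine Finset.card_lt_card ?_
        rw [Finset.ssubset_iff_of_subset hsub]
        have hex : ∃ i, i ∈ S x := (Finset.card_pos.1 h).exists_mem
        refine ⟨Nat.find hex, Nat.find_spec hex, ?_⟩
        have h5 := Nat.find_spec hex
        rw [Finset.mem_filter] at h5
        set i := Nat.find hex with hi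
        have hij : i < j := by simpa using h5.1
        have h6 : (2 : ℤ) ^ i ∣ x := by
          rcases Nat.eq_zero_or_pos i with h0 | h0
          · rw [h0]
            simp
          · have h7 := Nat.find_min hex (show i - 1 < Nat.find hex by omega)
            rw [Finset.mem_filter, not_and, not_not] at h7
            have h8 := h7 (by simp; omega)
            rwa [show i - 1 + 1 = i by omega] at h8
        have h7 : (2 : ℤ) ^ i ∣ g := hdg i hij.le h6
        obtain ⟨y, hy⟩ := h6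
        obtain ⟨z, hz⟩ := h7
        have hy2 : ¬ (2 : ℤ) ∣ y := fun h => h5.2 (by
          obtain ⟨w, rfl⟩ := h
          exact ⟨w, by rw [hy]; ring⟩)
        have hz2 : ¬ (2 : ℤ) ∣ z := fun h => h5.2 (by
          obtain ⟨w, rfl⟩ := h
          refine dvd_trans ⟨w, ?_⟩ hgx
          rw [hz]; ring)
        rw [Finset.mem_filter, not_and, not_not]
        intro _
        have h8 : (2 : ℤ) ∣ y - z := by omega
        obtain ⟨w, hw⟩ := h8
        refine ⟨w, ?_⟩
        rw [hy, hz]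
        have : y = z + 2 * w := by linarith
        rw [this]
        ring
      have h5 : ((S (x - g)).card : ℤ) + 1 ≤ (S x).card := by exact_mod_cast h4
      linarith

/-- scaling -/
lemma a_mul (R : ℤ[X]) (u : ℕ) (M : ℤ) (n : ℕ) : a (C (u : ℤ) * R) (u * M) n = u * a R M n := by
  have h : ∀ n : ℕ, a (C (u : ℤ) * R) (u * M) n = u * a R M n ∧
      a (C (u : ℤ) * R) (u * M) (n + 1) = u * a R M (n + 1) := by
    intro n
    induction n with
    | zero => exact ⟨by rw [a, a], by rw [a_one, a_one]⟩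
    | succ n ih =>
      refine ⟨ih.2, ?_⟩
      rw [a_succ _ _ (show 1 ≤ n + 1 by omega), a_succ _ _ (show 1 ≤ n + 1 by omega), ih.2,
        eval_mul, eval_C, Int.gcd_mul_left]
      push_cast
      rw [Nat.abs_cast]
      ring
  exact (h n).1

lemma f_mul (R : ℤ[X]) (u : ℕ) (hu : 1 ≤ u) (M : ℕ) : f (C (u : ℤ) * R) (u * M) = f R M := by
  have hu0 : (u : ℤ) ≠ 0 := by
    have : u ≠ 0 := by omega
    exact_mod_cast this
  unfold f
  congr 1
  ext n
  simp only [Set.mem_ofPred_eq]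
  rw [show ((u * M : ℕ) : ℤ) = (u : ℤ) * (M : ℤ) by push_cast; ring, a_mul, mul_eq_zero]
  constructor
  · rintro ⟨h1, h2⟩
    exact ⟨h1, h2.resolve_left hu0⟩
  · rintro ⟨h1, h2⟩
    exact ⟨h1, Or.inr h2⟩

/-- powers of a linear polynomial whose value at `N + 2` is a power of a prime above `N` -/
lemma f_linear (b c : ℤ) (k N : ℕ) (p : ℕ) (hp : p.Prime) (hp' : (p : ℤ) = b * (N + 2) + c)
    (hN : N < p) : f ((C b * X + C c) ^ k) N = N + 1 := by
  set P : ℤ[X] := (C b * X + C c) ^ k with hPdef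
  have key : ∀ n : ℕ, 1 ≤ n → n ≤ N + 1 → a P N n = N + 1 - n := by
    intro n hn
    induction n, hn using Nat.le_induction with
    | base =>
      intro _
      rw [a_one]
      push_cast
      ring
    | succ n hn ih =>
      intro h1
      rw [a_succ P N hn, ih (by omega)]
      have h2 : Int.gcd ((N : ℤ) + 1 - n) (P.eval ((n + 1 : ℕ) : ℤ)) = 1 := by
        rw [hPdef, eval_pow, eval_add, eval_mul, eval_C, eval_C, eval_X, ← Int.isCoprime_iff_gcd_eq_one]
        refine IsCoprime.pow_right ?_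
        have h3 : IsCoprime ((N : ℤ) + 1 - n) (p : ℤ) := by
          rw [show ((N : ℤ) + 1 - n) = ((N + 1 - n : ℕ) : ℤ) by
            rw [Nat.cast_sub (by omega)]; push_cast; ring]
          rw [Nat.isCoprime_iff_coprime]
          exact (Nat.coprime_of_lt_prime (by omega) (by omega) hp).symm
        rw [hp'] at h3
        have h4 : b * (((n + 1 : ℕ)) : ℤ) + c = b * (N + 2) + c + ((N : ℤ) + 1 - n) * (-b) := by
          push_cast
          ring
        rw [h4]
        exact h3.add_mul_left_right _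
      rw [h2]
      push_cast
      ring
  have h1 : a P N (N + 1) = 0 := by
    rw [key (N + 1) (by omega) le_rfl]
    push_cast
    ring
  refine le_antisymm (f_le_succ P N) ?_
  by_contra hcon
  push Not at hcon
  have h2 := (f_spec P N).1
  have h3 := key (f P N) h2.1 (by omega)
  rw [h2.2] at h3
  omega

/-! ### limits superior -/

lemma ratio_le_two (P : ℤ[X]) (N : ℕ) : (f P N : ℝ) / N ≤ 2 := by
  rcases Nat.eq_zero_or_pos N with rfl | h
  · simp
  · have h1 : (0 : ℝ) < N := by exact_mod_cast h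
    have h2 : (f P N : ℝ) ≤ N + 1 := by exact_mod_cast f_le_succ P N
    have h3 : (1 : ℝ) ≤ N := by exact_mod_cast h
    rw [div_le_iff₀ h1]
    linarith

lemma ratio_nonneg (P : ℤ[X]) (N : ℕ) : 0 ≤ (f P N : ℝ) / N := by positivity

lemma bdd (P : ℤ[X]) :
    IsBoundedUnder (· ≤ ·) atTop (fun N : ℕ => (f P N : ℝ) / N) :=
  isBoundedUnder_of ⟨2, ratio_le_two P⟩

lemma cobdd (P : ℤ[X]) :
    IsCoboundedUnder (· ≤ ·) atTop (fun N : ℕ => (f P N : ℝ) / N) :=
  IsBoundedUnder.isCoboundedUnder_le (isBoundedUnder_of ⟨0, ratio_nonneg P⟩)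

lemma L_le (P : ℤ[X]) (s t : ℝ) (h : ∀ N : ℕ, (f P N : ℝ) ≤ s * N + t) : L P ≤ s := by
  refine le_of_forall_pos_le_add fun ε hε => ?_
  refine limsup_le_of_le (cobdd P) ?_
  have h1 : ∀ᶠ N : ℕ in atTop, t / ε ≤ N := tendsto_natCast_atTop_atTop.eventually_ge_atTop _
  filter_upwards [h1, eventually_gt_atTop 0] with N h2 h3
  have h4 : (0 : ℝ) < N := by exact_mod_cast h3
  rw [div_le_iff₀ h4]
  rw [div_le_iff₀ hε] at h2
  linarith [h N]

lemma le_L (P : ℤ[X]) (s : ℝ) (h : ∃ᶠ N : ℕ in atTop, s * N ≤ (f P N : ℝ)) : s ≤ L P := by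
  refine le_limsup_of_frequently_le ?_ (bdd P)
  refine (h.and_eventually (eventually_gt_atTop 0)).mono ?_
  rintro N ⟨h1, h2⟩
  have h4 : (0 : ℝ) < N := by exact_mod_cast h2
  rw [le_div_iff₀ h4]
  exact h1

lemma L_nonneg (P : ℤ[X]) : 0 ≤ L P :=
  le_L P 0 (Eventually.frequently (Eventually.of_forall fun N => by rw [zero_mul]; positivity))

/-- fixed divisors keep the limit superior away from one -/
lemma L_le_of_dvd (P : ℤ[X]) (q : ℕ) (hq : 2 ≤ q) (hP : ∀ n : ℕ, 2 ≤ n → (q : ℤ) ∣ P.eval (n : ℤ)) :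
    L P ≤ 1 - 1 / q := by
  refine L_le P _ 2 fun N => ?_
  have h1 := f_le_of_dvd P q hq hP N
  have h2 : (f P N : ℝ) + ((N / q : ℕ) : ℝ) ≤ N + 1 := by exact_mod_cast h1
  have h3 : (N : ℝ) / q < ((N / q : ℕ) : ℝ) + 1 := by
    have := Nat.lt_floor_add_one ((N : ℝ) / q)
    rwa [Nat.floor_div_natCast, Nat.floor_natCast] at this
  have h4 : (1 - 1 / (q : ℝ)) * N = N - (N : ℝ) / q := by ring
  rw [h4]
  linarith

lemma L_le_of_two_pow_dvd (P : ℤ[X]) (j : ℕ)
    (hP : ∀ n : ℕ, 2 ≤ n → (2 : ℤ) ^ j ∣ P.eval (n : ℤ)) : L P ≤ 1 / 2 ^ j := by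
  refine L_le P _ (j + 1) fun N => ?_
  have h1 := f_le_of_two_pow_dvd P j hP N
  have h2 : (f P N : ℝ) ≤ ((N / 2 ^ j : ℕ) : ℝ) + j + 1 := by exact_mod_cast h1
  have h3 : ((N / 2 ^ j : ℕ) : ℝ) ≤ (N : ℝ) / 2 ^ j := by
    have : ((N / 2 ^ j : ℕ) : ℝ) ≤ (N : ℝ) / ((2 ^ j : ℕ) : ℝ) := Nat.cast_div_le
    rwa [Nat.cast_pow, Nat.cast_ofNat] at this
  have h4 : 1 / (2 : ℝ) ^ j * N = N / 2 ^ j := by ring
  rw [h4]
  linarith

lemma L_of_root (P : ℤ[X]) (n : ℕ) (hn : 2 ≤ n) (h : P.eval (n : ℤ) = 0) : L P = 0 := by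
  refine le_antisymm (L_le P 0 n fun N => ?_) (L_nonneg P)
  have : (f P N : ℝ) ≤ n := by exact_mod_cast f_le_of_root P n hn h N
  linarith

/-- infinitely many good `N` for powers of linear polynomials -/
lemma frequently_linear (b : ℕ) (c : ℤ) (k : ℕ) (hb : 1 ≤ b) (hbc : Int.gcd b c = 1)
    (hroot : b = 1 → -1 ≤ c) :
    ∃ᶠ N : ℕ in atTop, f ((C (b : ℤ) * X + C c) ^ k) N = N + 1 := by
  rw [frequently_atTop]
  intro N₀
  obtain ⟨p, hp1, hp2, hp3⟩ := Nat.forall_exists_prime_gt_and_zmodEq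
    (b * (N₀ + 3) + c.natAbs + 3) (q := b) (a := c) (by omega)
    (by rw [isCoprime_comm, Int.isCoprime_iff_gcd_eq_one]; exact hbc)
  obtain ⟨t, ht⟩ := hp3.symm.dvd
  have hb' : (1 : ℤ) ≤ b := by exact_mod_cast hb
  have hp1' : (b : ℤ) * (N₀ + 3) + |c| + 3 < p := by
    have : ((b * (N₀ + 3) + c.natAbs + 3 : ℕ) : ℤ) < p := by exact_mod_cast hp1
    push_cast at this
    exact this
  have hc1 : c ≤ |c| := le_abs_self c
  have hc2 : -c ≤ |c| := neg_le_abs c
  have ht1 : (N₀ : ℤ) + 3 < t := by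
    by_contra hcon
    push Not at hcon
    have : (b : ℤ) * t ≤ b * (N₀ + 3) := mul_le_mul_of_nonneg_left hcon (by linarith)
    linarith
  obtain ⟨N, hN⟩ : ∃ N : ℕ, (N : ℤ) = t - 2 := ⟨(t - 2).toNat, by omega⟩
  refine ⟨N, by omega, ?_⟩
  have hN' : (N : ℤ) + 2 = t := by linarith
  refine f_linear b c k N p hp2 (by rw [hN']; linarith) ?_
  have h1 : (p : ℤ) = b * (N + 2) + c := by rw [hN']; linarith
  have h2 : (N : ℤ) < p := by
    rcases Nat.eq_or_lt_of_le hb with h | h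
    · have h3 := hroot h.symm
      rw [← h] at h1
      push_cast at h1
      linarith
    · have h3 : (2 : ℤ) ≤ b := by exact_mod_cast h
      have h4 : (2 : ℤ) * (N + 2) ≤ b * (N + 2) := mul_le_mul_of_nonneg_right h3 (by positivity)
      have h5 : |c| < p := by
        have : 0 ≤ (b : ℤ) * (N₀ + 3) := by positivity
        linarith
      linarith
  exact_mod_cast h2

lemma eval_linear (u b : ℕ) (c : ℤ) (k : ℕ) (n : ℤ) :
    (C (u : ℤ) * (C (b : ℤ) * X + C c) ^ k).eval n = u * (b * n + c) ^ k := by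
  rw [eval_mul, eval_C, eval_pow, eval_add, eval_mul, eval_C, eval_X, eval_C]

lemma le_L_linear (u b : ℕ) (c : ℤ) (k : ℕ) (hu : 1 ≤ u) (hb : 1 ≤ b) (hbc : Int.gcd b c = 1)
    (hroot : b = 1 → -1 ≤ c) : 1 / (u : ℝ) ≤ L (C (u : ℤ) * (C (b : ℤ) * X + C c) ^ k) := by
  refine le_L _ _ ?_
  have h := frequently_linear b c k hb hbc hroot
  rw [frequently_atTop] at h ⊢
  intro N₀
  obtain ⟨M, hM, hM'⟩ := h N₀
  refine ⟨u * M, hM.trans (Nat.le_mul_of_pos_left M (by omega)), ?_⟩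
  rw [f_mul _ u hu, hM']
  have hu' : (u : ℝ) ≠ 0 := by
    have : u ≠ 0 := by omega
    exact_mod_cast this
  push_cast
  field_simp
  linarith

lemma root_of_not (b : ℕ) (c : ℤ) (u k : ℕ) (hk : 1 ≤ k)
    (h : ∀ n : ℕ, 2 ≤ n → (C (u : ℤ) * (C (b : ℤ) * X + C c) ^ k).eval (n : ℤ) ≠ 0) :
    b = 1 → -1 ≤ c := by
  rintro rfl
  by_contra hcon
  push Not at hcon
  refine h (-c).toNat (by omega) ?_
  rw [eval_linear, show (((-c).toNat : ℕ) : ℤ) = -c by omega]
  rw [show ((1 : ℕ) : ℤ) * -c + c = 0 by push_cast; ring, zero_pow (by omega), mul_zero]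

/-- monic polynomials, irreducible, positive at positive integers, and with all values divisible
by a given power of two -/
lemma exists_irreducible (j : ℕ) (hj : 1 ≤ j) : ∃ P : ℤ[X], P.Monic ∧ Irreducible P ∧
    Admissible P ∧ (∀ n : ℕ, 1 ≤ n → 0 < P.eval (n : ℤ)) ∧
    ∀ n : ℕ, 1 ≤ n → (2 : ℤ) ^ j ∣ P.eval (n : ℤ) := by
  set A : ℤ[X] := ∏ i ∈ Finset.range (2 * j), (X + C (3 * (i : ℤ))) with hA
  set P : ℤ[X] := A + C (3 * 2 ^ j) with hP
  have hAm : A.Monic := monic_prod_of_monic _ _ fun i _ => monic_X_add_C _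
  have hAd : A.natDegree = 2 * j := by
    rw [hA, natDegree_prod_of_monic _ _ fun i _ => monic_X_add_C _]
    simp only [natDegree_X_add_C, Finset.sum_const, Finset.card_range, smul_eq_mul, mul_one]
  have hAd' : 0 < A.degree := by
    rw [← natDegree_pos_iff_degree_pos, hAd]
    omega
  have hdeg : (C (3 * 2 ^ j) : ℤ[X]).degree < A.degree := degree_C_le.trans_lt hAd'
  have hPm : P.Monic := hAm.add_of_left hdeg
  have hPd : 0 < P.degree := by
    rw [hP, degree_add_eq_left_of_degree_lt hdeg]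
    exact hAd'
  have hPn : P.natDegree = 2 * j := by
    rw [← hAd]
    exact natDegree_eq_of_degree_eq (by rw [hP, degree_add_eq_left_of_degree_lt hdeg])
  have hev : ∀ n : ℤ, P.eval n = ∏ i ∈ Finset.range (2 * j), (n + 3 * (i : ℤ)) + 3 * 2 ^ j := by
    intro n
    rw [hP, eval_add, eval_C, hA, eval_prod]
    congr 1
    refine Finset.prod_congr rfl fun i _ => ?_
    rw [eval_add, eval_X, eval_C]
  have hpos : ∀ n : ℕ, (n : ℤ) ^ (2 * j) < P.eval (n : ℤ) := by
    intro n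
    rw [hev]
    have h1 : (n : ℤ) ^ (2 * j) ≤ ∏ i ∈ Finset.range (2 * j), ((n : ℤ) + 3 * (i : ℤ)) := by
      calc (n : ℤ) ^ (2 * j) = ∏ i ∈ Finset.range (2 * j), (n : ℤ) := by simp
        _ ≤ _ := Finset.prod_le_prod (fun i _ => by positivity) fun i _ => by
          have : (0 : ℤ) ≤ 3 * (i : ℤ) := by positivity
          linarith
    have h2 : (0 : ℤ) < 3 * 2 ^ j := by positivity
    linarith
  refine ⟨P, hPm, ?_, ⟨fun n _ => ?_, ?_⟩, fun n _ => ?_, fun n _ => ?_⟩
  · -- Eisenstein at `3`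
    have h3 : (Ideal.span {(3 : ℤ)}).IsPrime :=
      (Ideal.span_singleton_prime (by norm_num)).2 Int.prime_three
    have hmap : P.map (Int.castRingHom (ZMod 3)) = X ^ (2 * j) := by
      rw [hP, hA, Polynomial.map_add, Polynomial.map_prod, Polynomial.map_C]
      have h4 : ∀ i ∈ Finset.range (2 * j),
          (X + C (3 * (i : ℤ)) : ℤ[X]).map (Int.castRingHom (ZMod 3)) = X := by
        intro i _
        rw [Polynomial.map_add, Polynomial.map_X, Polynomial.map_C]
        have : (Int.castRingHom (ZMod 3)) (3 * (i : ℤ)) = 0 := by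
          rw [map_mul]
          have : (Int.castRingHom (ZMod 3)) 3 = 0 := by decide
          rw [this, zero_mul]
        rw [this, C_0, add_zero]
      rw [Finset.prod_congr rfl h4, Finset.prod_const, Finset.card_range]
      have : (Int.castRingHom (ZMod 3)) (3 * 2 ^ j) = 0 := by
        rw [map_mul]
        have : (Int.castRingHom (ZMod 3)) 3 = 0 := by decide
        rw [this, zero_mul]
      rw [this, C_0, add_zero]
    refine irreducible_of_eisenstein_criterion h3 ?_ ?_ hPd ?_ hPm.isPrimitive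
    · rw [hPm.leadingCoeff, Ideal.mem_span_singleton]
      norm_num
    · intro n hn
      rw [Ideal.mem_span_singleton]
      have h5 : (P.map (Int.castRingHom (ZMod 3))).coeff n = 0 := by
        rw [hmap, coeff_X_pow, if_neg]
        rw [degree_eq_natDegree hPm.ne_zero, hPn] at hn
        have : n < 2 * j := by exact_mod_cast hn
        omega
      rw [coeff_map] at h5
      exact (ZMod.intCast_zmod_eq_zero_iff_dvd (P.coeff n) 3).1 (by simpa using h5)
    · have h5 : P.coeff 0 = 3 * 2 ^ j := by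
        rw [coeff_zero_eq_eval_zero, hev]
        rw [Finset.prod_eq_zero (Finset.mem_range.2 (show 0 < 2 * j by omega)) (by simp), zero_add]
      rw [h5, Ideal.span_singleton_pow, Ideal.mem_span_singleton]
      rintro ⟨y, hy⟩
      have h6 : (2 : ℤ) ^ j = 3 * y := by linarith
      have h7 : (3 : ℤ) ∣ 2 := Int.prime_three.dvd_of_dvd_pow (n := j) ⟨y, h6⟩
      norm_num at h7
  · have h1 := hpos n
    have h2 : (0 : ℤ) ≤ (n : ℤ) ^ (2 * j) := by positivity
    linarith
  · refine tendsto_atTop_mono (fun n => ?_) (tendsto_natCast_atTop_atTop (R := ℤ))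
    have h1 := hpos n
    have h2 : (n : ℤ) ≤ (n : ℤ) ^ (2 * j) := by
      rcases Nat.eq_zero_or_pos n with rfl | h
      · positivity
      · exact le_self_pow₀ (by exact_mod_cast h) (by omega)
    linarith
  · have h1 := hpos n
    have h2 : (0 : ℤ) ≤ (n : ℤ) ^ (2 * j) := by positivity
    linarith
  · rw [hev]
    refine dvd_add ?_ (dvd_mul_left _ _)
    clear_value P A
    have h1 : ∀ j : ℕ, (2 : ℤ) ^ j ∣ ∏ i ∈ Finset.range (2 * j), ((n : ℤ) + 3 * (i : ℤ)) := by
      intro j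
      induction j with
      | zero => simp
      | succ j ih =>
        rw [show 2 * (j + 1) = 2 * j + 1 + 1 by ring, Finset.prod_range_succ,
          Finset.prod_range_succ, pow_succ, mul_assoc]
        refine mul_dvd_mul ih ?_
        push_cast
        rcases Int.even_or_odd ((n : ℤ) + 3 * (2 * j)) with h | h
        · exact dvd_mul_of_dvd_left h.two_dvd _
        · refine dvd_mul_of_dvd_right ?_ _
          obtain ⟨w, hw⟩ := h
          exact ⟨w + 2, by linarith⟩
    exact h1 j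

/-- **The limit superior of `f_P(N) / N` is not always `1`.**

1. The question has a negative answer.
2. `f_P(N)` is the least index `n ≥ 1` with `a(n) = 0` (it exists).
3. If some integer `q ≥ 2` divides all the values `P(n)`, `n ≥ 2`, then
   `f_P(N) ≤ N + 1 - ⌊N / q⌋` for all `N`, so the limit superior is at most `1 - 1 / q`.
4. For all `ε > 0` there is a monic irreducible `P`, positive at all positive integers, with
   `f_P(N) ≤ ε N` for all large `N`.
5. For `P = u (b X + c) ^ k` with `u, b, k ≥ 1` and `gcd(b, c) = 1` the limit superior is `1`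
   exactly when `u = 1` and `P` has no zero `n ≥ 2`; for `u = 2 ^ j` and without such a zero it
   is `1 / 2 ^ j`. -/
theorem result :
    (¬ ∀ P : ℤ[X], Admissible P → L P = 1) ∧
    (∀ (P : ℤ[X]) (N : ℕ), IsLeast {n : ℕ | 1 ≤ n ∧ a P N n = 0} (f P N)) ∧
    (∀ (P : ℤ[X]) (q : ℕ), 2 ≤ q → (∀ n : ℕ, 2 ≤ n → (q : ℤ) ∣ P.eval (n : ℤ)) →
      (∀ N : ℕ, f P N + N / q ≤ N + 1) ∧ L P ≤ 1 - 1 / q) ∧
    (∀ ε : ℝ, 0 < ε → ∃ P : ℤ[X], P.Monic ∧ Irreducible P ∧ Admissible P ∧
      (∀ n : ℕ, 1 ≤ n → 0 < P.eval (n : ℤ)) ∧ ∀ᶠ N : ℕ in atTop, (f P N : ℝ) ≤ ε * N) ∧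
    (∀ (u b k : ℕ) (c : ℤ), 1 ≤ u → 1 ≤ b → 1 ≤ k → Int.gcd b c = 1 →
      (L (C (u : ℤ) * (C (b : ℤ) * X + C c) ^ k) = 1 ↔
        u = 1 ∧ ∀ n : ℕ, 2 ≤ n → (C (u : ℤ) * (C (b : ℤ) * X + C c) ^ k).eval (n : ℤ) ≠ 0) ∧
      (∀ j : ℕ, u = 2 ^ j →
        (∀ n : ℕ, 2 ≤ n → (C (u : ℤ) * (C (b : ℤ) * X + C c) ^ k).eval (n : ℤ) ≠ 0) →
        L (C (u : ℤ) * (C (b : ℤ) * X + C c) ^ k) = 1 / 2 ^ j)) := by
  refine ⟨?_, f_spec, fun P q hq hP => ⟨f_le_of_dvd P q hq hP, L_le_of_dvd P q hq hP⟩,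
    ?_, ?_⟩
  · intro h
    obtain ⟨P, -, -, h1, -, h2⟩ := exists_irreducible 1 le_rfl
    have h3 := L_le_of_two_pow_dvd P 1 fun n hn => h2 n (by omega)
    rw [h P h1] at h3
    norm_num at h3
  · intro ε hε
    obtain ⟨j, hj⟩ : ∃ j : ℕ, 2 / ε < j := exists_nat_gt _
    obtain ⟨P, h1, h2, h3, h4, h5⟩ := exists_irreducible (j + 1) (by omega)
    refine ⟨P, h1, h2, h3, h4, ?_⟩
    have h6 : ∀ᶠ N : ℕ in atTop, 2 * ((j : ℝ) + 2) / ε ≤ N :=
      tendsto_natCast_atTop_atTop.eventually_ge_atTop _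
    filter_upwards [h6] with N h7
    have h8 := f_le_of_two_pow_dvd P (j + 1) (fun n hn => h5 n (by omega)) N
    have h9 : (f P N : ℝ) ≤ ((N / 2 ^ (j + 1) : ℕ) : ℝ) + (j + 1) + 1 := by exact_mod_cast h8
    have h10 : ((N / 2 ^ (j + 1) : ℕ) : ℝ) ≤ (N : ℝ) / 2 ^ (j + 1) := by
      have : ((N / 2 ^ (j + 1) : ℕ) : ℝ) ≤ (N : ℝ) / ((2 ^ (j + 1) : ℕ) : ℝ) := Nat.cast_div_le
      rwa [Nat.cast_pow, Nat.cast_ofNat] at this
    have h11 : (j : ℝ) ≤ 2 ^ (j + 1) := by
      have h12 : j < 2 ^ j := Nat.lt_two_pow_self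
      have h13 : (2 : ℕ) ^ j ≤ 2 ^ (j + 1) := Nat.pow_le_pow_right (by norm_num) (by omega)
      exact_mod_cast (h12.le.trans h13)
    have hjpos : (0 : ℝ) < j := lt_of_le_of_lt (by positivity) hj
    have h12 : (N : ℝ) / 2 ^ (j + 1) ≤ ε / 2 * N := by
      rw [div_lt_iff₀ hε] at hj
      rw [div_le_iff₀ (by positivity)]
      have h14 : 2 ≤ 2 ^ (j + 1) * ε := by nlinarith
      have h15 : (0 : ℝ) ≤ N := by positivity
      nlinarith
    rw [div_le_iff₀ hε] at h7
    linarith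
  · intro u b k c hu hb hk hbc
    have hu1 : ∀ n : ℕ, 2 ≤ n → (u : ℤ) ∣ (C (u : ℤ) * (C (b : ℤ) * X + C c) ^ k).eval (n : ℤ) :=
      fun n _ => by
        rw [eval_linear]
        exact dvd_mul_right _ _
    refine ⟨⟨fun h => ⟨?_, fun n hn hn' => ?_⟩, ?_⟩, ?_⟩
    · by_contra hne
      have h1 := L_le_of_dvd _ u (by omega) hu1
      rw [h] at h1
      have h2 : (0 : ℝ) < 1 / u := by
        have : (0 : ℝ) < u := by exact_mod_cast hu
        positivity
      linarith
    · rw [L_of_root _ n hn hn'] at h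
      norm_num at h
    · rintro ⟨h1, h2⟩
      refine le_antisymm (L_le _ 1 1 fun N => ?_) ?_
      · rw [one_mul]
        exact_mod_cast f_le_succ _ N
      · have h3 := le_L_linear u b c k hu hb hbc (root_of_not b c u k hk h2)
        rw [h1] at h3 ⊢
        simpa using h3
    · intro j hj h2
      have h3 := le_L_linear u b c k hu hb hbc (root_of_not b c u k hk h2)
      have h4 : ((u : ℕ) : ℝ) = 2 ^ j := by rw [hj]; push_cast; rfl
      rw [h4] at h3
      refine le_antisymm (L_le_of_two_pow_dvd _ j fun n hn => ?_) h3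
      have h5 : ((u : ℕ) : ℤ) = 2 ^ j := by rw [hj]; push_cast; rfl
      rw [← h5]
      exact hu1 n hn

end Pool.Agent.Results.MP_0950f1_nt.FixedDivisors
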